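import Pool.Agent.helper66.SL.SpecA

/-! # Row sl:TRE (MP_ad2b66_co): the transport exists -/

set_option autoImplicit false

namespace Pool.Agent.helper66.SL

open Pool.Agent.helper52.FC

theorem TRE_two {α : Type} {s : Set α} (h : s.ncard = 2) {e : α} (he : e ∈ s) :
    ∃ k, k ≠ e ∧ k ∈ s ∧ ∀ g ∈ s, g = e ∨ g = k := by
  obtain ⟨a, b, hab, rfl⟩ := Set.ncard_eq_two.1 h
  rcases he with rfl | he
  · exact ⟨b, hab.symm, Or.inr rfl, fun g hg => hg⟩
  · rw [Set.mem_singleton_iff] at he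
    subst he
    exact ⟨a, hab, Or.inl rfl, fun g hg => hg.symm⟩

theorem TRE_proof (hXJW : XJW) (hXUQ : XUQ) : TRE := by
  classical
  intro E _ L F hL hF S hS e he x
  have hS' : IsTope L (fl S e) := he
  have he' : Wall L (fl S e) e := by
    unfold Wall
    rw [fl_fl]
    exact hS
  have hle1 : ∀ Z : E → SignType, Z e = 0 → Le Z (fl S e) → Le Z S := by
    intro Z hZ h g
    by_cases hg : g = e
    · exact Or.inl (hg ▸ hZ)
    · have := h g
      rw [fl_ne S hg] at this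
      exact this
  have hle2 : ∀ Z : E → SignType, Z e = 0 → Le Z S → Le Z (fl S e) := by
    intro Z hZ h g
    by_cases hg : g = e
    · exact Or.inl (hg ▸ hZ)
    · rw [fl_ne S hg]
      exact h g
  have hex : ∀ g, Wall L (fl S e) g → g ≠ e → ∃ (Z : E → SignType) (f : E → ℝ), Cork L Z 2 ∧ Le Z (fl S e) ∧
      (∀ h, Wall L (fl S e) h → (Z h = 0 ↔ h = e ∨ h = g)) ∧ f ∈ F Z ∧
      ∀ h, Wall L S h → Z h = 0 → x h = f h := by
    intro g hg hge
    obtain ⟨Z, hZ, hZS, hZw⟩ := hXJW E L hL (fl S e) hS' {e, g} (by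
      intro h hh
      rcases hh with rfl | hh
      · exact he'
      · rw [Set.mem_singleton_iff] at hh
        subst hh
        exact hg)
    rw [Set.ncard_pair hge.symm] at hZ
    have hZe : Z e = 0 := (hZw e he').2 (Or.inl rfl)
    have hZS2 := hle1 Z hZe hZS
    obtain ⟨k, hke, hk, hall⟩ := TRE_two (hZ.2 S hS hZS2) (e := e) ⟨he, hZe⟩
    obtain ⟨f, hf, hfe, hfk⟩ := hF.ext Z hZ S hS hZS2 e k hke.symm he hk.1 hZe hk.2 (x e) (x k)
    refine ⟨Z, f, hZ, hZS, fun h hh => ?_, hf, fun h hh hZh => ?_⟩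
    · rw [hZw h hh]
      rfl
    · rcases hall h ⟨hh, hZh⟩ with rfl | rfl
      · exact hfe.symm
      · exact hfk.symm
  choose! Zf ff hc using hex
  refine ⟨fun h => if h = e then x e else ff h h, by simp, fun Z hZ hZS hZe => ?_⟩
  have hZS' := hle2 Z hZe hZS
  obtain ⟨g, hge, hg, hall⟩ := TRE_two (hZ.2 (fl S e) hS' hZS') (e := e) ⟨he', hZe⟩
  obtain ⟨c1, c2, c3, c4, c5⟩ := hc g hg.1 hge
  have hZZ : Z = Zf g := by
    refine hXUQ E L hL (fl S e) hS' Z hZ.1 (Zf g) c1.1 hZS' c2 fun h hh => ?_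
    rw [c3 h hh]
    constructor
    · intro h0
      exact hall h ⟨hh, h0⟩
    · rintro (rfl | rfl)
      · exact hZe
      · exact hg.2
  subst hZZ
  refine ⟨ff g, c4, c5, fun h hh h0 => ?_⟩
  rcases hall h ⟨hh, h0⟩ with rfl | rfl
  · simp only [if_true]
    exact c5 h he h0
  · simp [hge]

end Pool.Agent.helper66.SL
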